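import Mathlib
import Pool.Graph.R_seed8.H440R3.Defs
import Pool.Graph.R_seed8.H492R2.Tor.Defs
import Pool.Agent.H447.Clo.Class
import Pool.Agent.H447.Clo.Padic
import Pool.Agent.H447.Clo.RealSetup
import Pool.Agent.H447.Gen.SDefs
import Pool.Agent.H447.Gen.Nons
import Pool.Agent.H447.Gen.Conv
import Pool.Agent.H447.Gen.PadicIff
import Pool.Agent.H447.Gal.Final

set_option autoImplicit false

/-!
# MP_7de521_nt: for which Galois extensions `N` of `ℚ` can the expected answer hold for
`R_{N/ℚ}(G_m)`? The list of the groups.

Let `N` be a finite Galois extension of `ℚ` with group `G` and `A = R_{N/ℚ}(G_m)`, so that the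
rational character module of `A` is `ℚ[G]`. We give the complete list of the groups `G` for which
there is no linear algebra obstruction to the expected answer.

* For the `p`-adic part: the group algebra `ℚ[G]` has no nilpotent elements, or `G` is one of the
  five groups `S_3`, `D_4` (order eight), `C_3 ⋊ C_4`, `C_4 ⋊ C_4`, `Q_16`. For all other `G` the
  `p`-adic part of the expected answer fails for all primes `p`; for the groups of the list it is
  equivalent to the structural rank conjecture for `A`.
* For the real part, with a complex conjugation `c ∈ G`: if `c` is central then `G / ⟨c⟩` is in the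
  list above, and if `c` is not central then `G` is `S_3` or `D_4`. For all other `G` the real part
  of the expected answer fails. In particular a Galois extension for which the real part holds is
  totally real, or a CM field with maximal real subfield in the list, or its group is `S_3` or
  `D_4`.

The proof. By our criterion `ℚ[G]` has to be nearly multiplicity free, i.e. a product of division
algebras and at most one matrix algebra, `M_2(ℚ)`. The projection to this factor gives a
representation `ρ : G → GL_2(ℚ)` with only scalar endomorphisms such that an element of square zero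
of `ℚ[G]` vanishes if its image under `ρ` does. All subgroups `⟨h⟩` which are not normal give such
elements `(1 - h) g ∑ h ^ k`, so `ρ(h)` is a reflection; and the image of `ρ` is dihedral. The other
restrictions on the kernel of `ρ` come from further elements of square zero (in particular from
`ℚ[Q_8]`, `ℚ[C_4 ⋊ C_4]` and the elements of order three).
-/

namespace Pool.Agent.Results.MP_7de521_nt.GaloisClassification

open Pool.Agent.H447.Clo Pool.Agent.H447.Gal Pool.Agent.H440R3

/-- **Main result.** Let `N` be a finite Galois extension of `ℚ` with group `G`.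

(1) If for some prime `p` the `p`-adic part of the expected answer holds for `R_{N/ℚ}(G_m)`, then
`ℚ[G]` has no nilpotent elements or `G` is one of the groups `S_3`, `D_4`, `C_3 ⋊ C_4`, `C_4 ⋊ C_4`,
`Q_16`.

(2) For these groups the `p`-adic part is equivalent, for all `p`, to the assertion that for every
finitely generated structurally nonsingular `L ⊂ Nˣ` in a compact subgroup of `(ℚ_p ⊗ N)ˣ` the
closure has the expected rank.

(3) If the real part of the expected answer holds for `R_{N/ℚ}(G_m)` and `c ∈ G` is a complex
conjugation, then `⟨c⟩` is normal with a quotient as in (1), or `c` is not central and `G` is `S_3`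
or `D_4`.

(4) Let `c ∈ G` be any element with `c ^ 2 = 1`. Then `⟨c⟩` is normal with a quotient as in (1), or
`c` is not central and `G` is `S_3` or `D_4`, if and only if every finitely generated `L ⊂ Nˣ` which
satisfies the rank condition with respect to `c` is structurally nonsingular with respect to `c`. -/
theorem result (N : Type) [Field N] [NumberField N] [IsGalois ℚ N] :
    ((∃ (p : ℕ) (_ : Fact p.Prime), PadicPart p N) →
      IsReduced (MonoidAlgebra ℚ (Pool.Agent.H447.Clo.Gal N)) ∨ Exceptional (Pool.Agent.H447.Clo.Gal N)) ∧
    ((IsReduced (MonoidAlgebra ℚ (Pool.Agent.H447.Clo.Gal N)) ∨ Exceptional (Pool.Agent.H447.Clo.Gal N)) →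
      ∀ (p : ℕ) [Fact p.Prime],
        (PadicPart p N ↔
          ∀ L : Subgroup Nˣ, L.FG →
            (∃ C : Subgroup (QpPoints p N), IsCompact (C : Set (QpPoints p N)) ∧
              L.map (incl p N) ≤ C) →
            Nonsing N N 1 L →
            ∀ C : Subgroup (QpPoints p N), IsMaxCompact p N (closureIn p N L) C →
              CommensurableZp p N (rk L) C)) ∧
    (∀ (τ : N →ₐ[ℚ] ℂ) (c : Pool.Agent.H447.Clo.Gal N), (∀ y, τ (c y) = (starRingEnd ℂ) (τ y)) →
      Pool.Agent.H492R2.Tor.ExpectedAnswerReal N → Listed (Pool.Agent.H447.Clo.Gal N) c) ∧
    (∀ c : Pool.Agent.H447.Clo.Gal N, c * c = 1 →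
      (Listed (Pool.Agent.H447.Clo.Gal N) c ↔
        ∀ L : Subgroup Nˣ, L.FG → RankCondition N N c L → Nonsing N N c L)) := by
  refine ⟨?_, ?_, ?_, ?_⟩
  · rintro ⟨p, hp, h⟩
    apply one_of_nmf
    apply nearly 1 (mul_one 1) _ (AlgHom.id ℚ N)
    intro D hc hS hS'
    exact not_padicPart p D hc hS hS' h
  · intro h p _
    exact padicPart_iff (AlgHom.id ℚ N) (nmf_of_one h) p
  · intro τ c hc h
    have hcc : c * c = 1 := by
      ext y
      apply τ.toRingHom.injective
      show τ (c (c y)) = τ y
      rw [hc, hc, Complex.conj_conj]
    apply listed_of_nmf hcc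
    apply nearly c hcc _ (AlgHom.id ℚ N)
    intro D hD hS hS'
    refine D.not_real hS hS' τ ?_ h
    intro y
    rw [hD]
    exact hc y
  · intro c hc
    exact ⟨fun h L hfg hL => Pool.Agent.H447.Gen.nonsing_of_nmf (AlgHom.id ℚ N) hc
      (nmf_of_listed hc h) hfg hL, fun h => listed_of_nmf hc (nmf_of_sound (AlgHom.id ℚ N) hc h)⟩

end Pool.Agent.Results.MP_7de521_nt.GaloisClassification
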