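import Mathlib
import Pool.Graph.R_seed8.H440R3.Defs
import Pool.Agent.H447.Clo.CharDefs
import Pool.Agent.H447.Clo.Class
import Pool.Agent.H447.Clo.Padic

set_option autoImplicit false

/-!
# MP_7de521_nt, Q2: for which number fields can the `p`-adic part hold for `R_{K/ℚ}(G_m)`?

Let `K` be any number field and `A = R_{K/ℚ}(G_m)`. Let `N ⊇ K` be a finite Galois extension of `ℚ`
with group `G`, and `X = ℚ[Hom(K, N)]` the rational character module of `A`. We prove: if the
`p`-adic part of the expected answer holds for `A` and ONE prime `p`, then

* no irreducible constituent of `X` has multiplicity three or more;
* a constituent of multiplicity two has no endomorphisms besides the rational scalars;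
* at most one constituent has multiplicity two.

In other words `A` is isogenous over `ℚ` to a product of pairwise non-isogenous simple tori, or to
the product of such a torus with one further copy of one of the simple factors, whose endomorphism
ring is then `ℤ`; the endomorphism algebra of `A` is a product of division algebras and at most one
matrix algebra, `M_2(ℚ)`. For all other number fields the `p`-adic part fails for every prime `p`.
For instance (`K / ℚ` Galois with group `G`, `X = ℚ[G]`) it fails if `G` is not abelian of odd
order, if `G` is a symmetric or alternating group of degree at least four, or a dihedral group of
order `2 n` with `n ≥ 5`.

The proof. In each of the three excluded cases there is a space `L` of families of functionals on the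
forbidden quotient of `X` which is semistable (each submodule has at most the expected dimension)
but for all specialisations singular: skew-symmetric `3 × 3` matrices in the first case, matrices
over a field `E` of endomorphisms which are skew with respect to a twisted form in the second case,
pairs of mutually transposed `2 × 2` matrices in the third case. The exponents are applied to
numbers congruent to `1` modulo `p ^ 2` all of whose conjugates are multiplicatively independent.
-/

namespace Pool.Agent.Results.MP_7de521_nt.PadicMultiplicities

open Pool.Agent.H447.Clo

/-- **Main result.** Let `K` be a number field, embedded by `ι` in a finite Galois extension `N` of
`ℚ`. If for some prime `p` the `p`-adic part of the expected answer holds for `R_{K/ℚ}(G_m)`, then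
the rational character module of this torus is nearly multiplicity free: all irreducible
constituents have multiplicity one, except possibly one, of multiplicity two, whose only
endomorphisms are the rational scalars. -/
theorem result (p : ℕ) [Fact p.Prime] (K N : Type) [Field K] [NumberField K] [Field N]
    [NumberField N] [IsGalois ℚ N] (ι : K →ₐ[ℚ] N) (h : Pool.Agent.H440R3.PadicPart p K) :
    NearlyMultiplicityFree K N 1 := by
  apply nearly 1 (mul_one 1) _ ι
  intro D hc hS hS'
  exact not_padicPart p D hc hS hS' h

end Pool.Agent.Results.MP_7de521_nt.PadicMultiplicities
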