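import Mathlib
import Pool.Graph.R_seed8.H492R2.Tor.Defs
import Pool.Agent.H447.Clo.CharDefs
import Pool.Agent.H447.Clo.Class
import Pool.Agent.H447.Clo.RealSetup

set_option autoImplicit false

/-!
# MP_7de521_nt, Q1: for which number fields can the real part hold for `R_{K/ℚ}(G_m)`?

Let `K` be any number field and `A = R_{K/ℚ}(G_m)`. Let `N ⊇ K` be a finite Galois extension of `ℚ`
with group `G`, let `c ∈ G` be a complex conjugation, and `X = ℚ[Hom(K, N)]` the rational character
module of `A`. We prove: if the real part of the expected answer holds for `A` then, among the
irreducible constituents `V` of `X` with `V ^ c ≠ 0` (those which belong to simple tori with
non-compact group of real points),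

* none has multiplicity three or more;
* one of multiplicity two has no endomorphisms besides the rational scalars;
* at most one has multiplicity two.

For all other number fields the real part fails. For instance (`K / ℚ` Galois with group `G`,
`X = ℚ[G]`) it fails if `G` is not abelian of odd order, or a symmetric or alternating group of
degree at least four.

The proof. As in the `p`-adic case there is a space `L` of families of functionals on the
forbidden quotient which is semistable with respect to the invariants of `c`, but singular for all
specialisations invariant under `c`. The exponents are applied to numbers all of whose
conjugates are multiplicatively independent. If the identity component of the closure of the group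
had finite index in a rational algebraic group `B`, the logarithms of `B` would form a rational space
`W`, the group would have few elements with logarithms in `W` (semistability), so modulo `W` its
rank would be larger than the dimension of the real span of its logarithms (singularity), and small
elements would give a line in the closure which is not in `B`.
-/

namespace Pool.Agent.Results.MP_7de521_nt.RealMultiplicities

open Pool.Agent.H447.Clo

/-- **Main result.** Let `K` be a number field, embedded by `ι` in a finite Galois extension `N` of
`ℚ`, and let `c` be the complex conjugation of `N` with respect to an embedding `τ` of `N` in `ℂ`.
If the real part of the expected answer holds for `R_{K/ℚ}(G_m)`, then the part of the rational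
character module of this torus with nonzero invariants under `c` is nearly multiplicity free: all
irreducible constituents with a nonzero vector fixed by `c` have multiplicity one, except possibly
one, of multiplicity two, whose only endomorphisms are the rational scalars. -/
theorem result (K N : Type) [Field K] [NumberField K] [Field N] [NumberField N] [IsGalois ℚ N]
    (ι : K →ₐ[ℚ] N) (τ : N →ₐ[ℚ] ℂ) (c : N ≃ₐ[ℚ] N)
    (hc : ∀ y, τ (c y) = (starRingEnd ℂ) (τ y))
    (h : Pool.Agent.H492R2.Tor.ExpectedAnswerReal K) : NearlyMultiplicityFree K N c := by
  have hcc : c * c = 1 := by
    ext y
    apply τ.toRingHom.injective
    show τ (c (c y)) = τ y
    rw [hc, hc, Complex.conj_conj]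
  apply nearly c hcc _ ι
  intro D hD hS hS'
  refine D.not_real hS hS' τ ?_ h
  intro y
  rw [hD]
  exact hc y

end Pool.Agent.Results.MP_7de521_nt.RealMultiplicities
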