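import Mathlib
import Pool.Graph.R_seed8.H440R3.Defs
import Pool.Agent.H447.Clo.CharDefs
import Pool.Agent.H447.Gen.SDefs
import Pool.Agent.H447.Gen.NDefs
import Pool.Agent.H447.Gen.Nons
import Pool.Agent.H447.Gen.Conv
import Pool.Agent.H447.Gen.PadicIff

set_option autoImplicit false

/-!
# MP_7de521_nt: the fields without a linear algebra obstruction to the expected answer

Let `K` be a number field, `A = R_{K/ℚ}(G_m)`, `N ⊇ K` a finite Galois extension of `ℚ` with group
`G`, and `c ∈ G` with `c ^ 2 = 1` (for the `p`-adic part `c = 1`; for the real part `c` is a complex
conjugation). For a finitely generated `L ⊂ Kˣ` the rank of the matrix `M(L)` of the logarithms of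
the conjugates of a basis of `L` is governed by its *structural rank*, the largest rank of the
matrices which we get if we replace the logarithm by a homomorphism `φ : Nˣ → ℚ` (invariant under
`c`). The structural rank is not larger than `rank L`, and if it is equal to `rank L` then the rank
condition of the `p`-adic part holds: `rank (L ∩ B) ≤ dim B` for all algebraic subgroups `B`.

We determine for which `K` the converse is true, so that there is no linear algebra obstruction to
the expected answer: the rank condition for `L` implies that the structural rank is `rank L`, for
all `L`, if and only if the rational character module `ℚ[Hom(K, N)]` of `A` is *nearly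
multiplicity free*: no irreducible constituent (with nonzero vectors fixed by `c`) has
multiplicity three or more, and at most one has multiplicity two, and its endomorphisms are
rational scalars. For nearly multiplicity free `K` the `p`-adic part of the expected answer is
therefore equivalent to the `p`-adic structural rank conjecture for the tori `A` and the matrices
`M(L)` (which follows from the `p`-adic Schanuel conjecture).

The proof that the condition is sufficient. The elements of `L` are homomorphisms from the
character module `Z` to the module `W = ℚ ⊗ Nˣ`. If the generic functional `φ` on `W` has a kernel
on `L`, there is a polynomial family `ξ(φ)` of kernel vectors. By induction (on the weight of `Z`;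
Harder-Narasimhan) we may assume that `L` is stable. The derivatives of `ξ` with respect to `φ` show
that `ξ(φ)`, as a homomorphism of modules, has a large kernel `κ(φ)`. If `Z` is nearly multiplicity
free then `κ(φ)` is a simple submodule in the isotypic component of multiplicity two, so it moves in
a projective line over `ℚ`; the derivatives of `ξ`, restricted to `κ(φ)`, are then proportional to
one homomorphism, and this gives a contradiction to stability.
-/

namespace Pool.Agent.Results.MP_7de521_nt.StructuralCriterion

open Pool.Agent.H447.Clo Pool.Agent.H440R3

/-- **Main result.** Let `K` be a number field, embedded by `ι` in a finite Galois extension `N` of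
`ℚ`.

(1) Let `c` be an element of the Galois group with `c ^ 2 = 1`. The character module of
`R_{K/ℚ}(G_m)` is nearly multiplicity free with respect to `c` if and only if every finitely
generated `L ⊂ Kˣ` which satisfies the rank condition with respect to `c` is structurally
nonsingular with respect to `c`.

(2) If the character module is nearly multiplicity free (with respect to `c = 1`, i.e. all
constituents count), then for every prime `p` the `p`-adic part of the expected answer for
`R_{K/ℚ}(G_m)` holds if and only if for every finitely generated structurally nonsingular `L ⊂ Kˣ`
in a compact subgroup of `(ℚ_p ⊗ K)ˣ` the closure has the expected rank. -/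
theorem result (K N : Type) [Field K] [NumberField K] [Field N] [NumberField N] [IsGalois ℚ N]
    (ι : Hm K N) :
    (∀ c : Gal N, c * c = 1 →
      (NearlyMF K c ↔
        ∀ L : Subgroup Kˣ, L.FG → RankCondition K N c L → Nonsing K N c L)) ∧
    (NearlyMF K (1 : Gal N) → ∀ (p : ℕ) [Fact p.Prime],
      (PadicPart p K ↔
        ∀ L : Subgroup Kˣ, L.FG →
          (∃ C : Subgroup (QpPoints p K), IsCompact (C : Set (QpPoints p K)) ∧
            L.map (incl p K) ≤ C) →
          Nonsing K N 1 L →
          ∀ C : Subgroup (QpPoints p K), IsMaxCompact p K (closureIn p K L) C →
            CommensurableZp p K (rk L) C)) :=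
  ⟨fun c hc => ⟨fun hmf _ hfg hL =>
      Pool.Agent.H447.Gen.nonsing_of_nmf ι hc ((nearlyMF_iff K c).mp hmf) hfg hL,
    fun h => (nearlyMF_iff K c).mpr (nmf_of_sound ι hc h)⟩,
    fun hmf p _ => padicPart_iff ι ((nearlyMF_iff K 1).mp hmf) p⟩

end Pool.Agent.Results.MP_7de521_nt.StructuralCriterion
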